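import Pool.Agent.Helper76.CV.Goals

/-!
PROJECT CV (MP_eec6f5_gt), packet CCF: the function C is small with two derivatives outside the neck regions.
-/

open scoped ContDiff
open Filter Topology

namespace Pool.Agent.Helper23.CV.CCF

open Pool.Agent.Helper76.CV

lemma sm_add {F G : ℝ → ℝ} {t a b : ℝ} (hF : ContDiff ℝ ∞ F) (hG : ContDiff ℝ ∞ G)
    (h1 : Sm F t a) (h2 : Sm G t b) : Sm (fun u => F u + G u) t (a + b) := by
  obtain ⟨dF, cF⟩ := contDiff_infty_iff_deriv.1 hF
  obtain ⟨dF', -⟩ := contDiff_infty_iff_deriv.1 cF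
  obtain ⟨dG, cG⟩ := contDiff_infty_iff_deriv.1 hG
  obtain ⟨dG', -⟩ := contDiff_infty_iff_deriv.1 cG
  have e1 : deriv (fun u => F u + G u) = fun u => deriv F u + deriv G u := by
    funext u
    exact deriv_fun_add (dF u) (dG u)
  have e2 : deriv (deriv (fun u => F u + G u)) t = deriv (deriv F) t + deriv (deriv G) t := by
    rw [e1]
    exact deriv_fun_add (dF' t) (dG' t)
  refine ⟨(abs_add_le _ _).trans (add_le_add h1.1 h2.1), ?_, ?_⟩
  · rw [e1]
    exact (abs_add_le _ _).trans (add_le_add h1.2.1 h2.2.1)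
  · rw [e2]
    exact (abs_add_le _ _).trans (add_le_add h1.2.2 h2.2.2)

lemma sm_sum {G : ℕ → ℝ → ℝ} {t b : ℝ} (s : Finset ℕ) (hG : ∀ i ∈ s, ContDiff ℝ ∞ (G i))
    (h : ∀ i ∈ s, Sm (G i) t b) : Sm (fun u => ∑ i ∈ s, G i u) t (s.card * b) := by
  classical
  induction s using Finset.induction_on with
  | empty =>
    simp [Sm]
  | insert i s hi ih =>
    have h1 := sm_add (hG i (Finset.mem_insert_self i s))
      (ContDiff.sum fun j hj => hG j (Finset.mem_insert_of_mem hj))
      (h i (Finset.mem_insert_self i s))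
      (ih (fun j hj => hG j (Finset.mem_insert_of_mem hj))
        (fun j hj => h j (Finset.mem_insert_of_mem hj)))
    have e1 : (fun u => ∑ j ∈ insert i s, G j u) = fun u => G i u + ∑ j ∈ s, G j u := by
      funext u
      exact Finset.sum_insert hi
    have e2 : ((insert i s).card : ℝ) * b = b + s.card * b := by
      rw [Finset.card_insert_of_notMem hi]
      push_cast
      ring
    rw [e1, e2]
    exact h1

lemma sm_shift {G : ℝ → ℝ} {t b c : ℝ} (h : Sm G (t - c) b) : Sm (fun u => G (u - c)) t b := by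
  have e1 : deriv (fun u => G (u - c)) = fun u => deriv G (u - c) := by
    funext u
    exact deriv_comp_sub_const G c u
  refine ⟨h.1, ?_, ?_⟩
  · rw [e1]
    exact h.2.1
  · rw [e1, deriv_comp_sub_const (deriv G) c t]
    exact h.2.2

lemma sm_refl {G : ℝ → ℝ} {t b c : ℝ} (h : Sm G (c - t) b) : Sm (fun u => G (c - u)) t b := by
  have e1 : deriv (fun u => G (c - u)) = fun u => -deriv G (c - u) := by
    funext u
    exact deriv_comp_const_sub G c u
  refine ⟨h.1, ?_, ?_⟩
  · rw [e1, abs_neg]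
    exact h.2.1
  · rw [e1]
    have e2 : deriv (fun u => -deriv G (c - u)) t = deriv (deriv G) (c - t) := by
      have := deriv_comp_const_sub (deriv G) c t
      rw [deriv.fun_neg, this, neg_neg]
    rw [e2]
    exact h.2.2

lemma chi_smooth (P : ℝ) : ContDiff ℝ ∞ (chi P) := by
  unfold chi
  exact Real.smoothTransition.contDiff.comp (by fun_prop)

theorem t (hHNA : HNA) (hE : CCE) (hN' : CCN) : CCF := by
  intro N hNN
  obtain ⟨K1, hK1, h1⟩ := hE
  obtain ⟨K2, hK2, h2⟩ := hN'
  have hNpos : (0:ℝ) ≤ N := Nat.cast_nonneg N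
  set K := K1 + K2 with hK
  have hKpos : 0 < K := by positivity
  refine ⟨max 1 (2 * 10 ^ 6 * ((N + 1) * K)), le_max_left _ _, ?_⟩
  intro P t hP ht0 htN hti
  have hP1 : 1 ≤ P := (le_max_left _ _).trans hP
  have hP2 : 2 * 10 ^ 6 * ((N + 1) * K) ≤ P := (le_max_right _ _).trans hP
  have hP0 : 0 < P := by linarith
  have hexp : Real.exp (-(P / 2)) ≤ 2 / P := by
    rw [Real.exp_neg]
    have h3 := Real.add_one_le_exp (P / 2)
    have h4 : P / 2 ≤ Real.exp (P / 2) := by linarith
    calc (Real.exp (P / 2))⁻¹ ≤ (P / 2)⁻¹ := inv_anti₀ (by positivity) h4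
      _ = 2 / P := by field_simp
  have hexp0 := Real.exp_pos (-(P / 2))
  set ε := K * Real.exp (-(P / 2)) with hε
  have hle1 : K1 * Real.exp (-(P / 2)) ≤ ε :=
    mul_le_mul_of_nonneg_right (by linarith) hexp0.le
  have hle2 : K2 * Real.exp (-(P / 2)) ≤ ε :=
    mul_le_mul_of_nonneg_right (by linarith) hexp0.le
  have mono : ∀ {F : ℝ → ℝ} {u a b : ℝ}, Sm F u a → a ≤ b → Sm F u b := by
    intro F u a b h hab
    exact ⟨h.1.trans hab, h.2.1.trans hab, h.2.2.trans hab⟩
  -- the terms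
  have hF0 : ContDiff ℝ ∞ (fun u => chi P u * Real.exp (-(4 * u))) :=
    (chi_smooth P).mul (by fun_prop)
  have hG0 : ContDiff ℝ ∞ (fun u => chi P u * chi P (-u) * hN u) :=
    ((chi_smooth P).mul ((chi_smooth P).comp (by fun_prop))).mul hHNA.1
  have ta : Sm (fun u => chi P u * Real.exp (-(4 * u))) t ε := by
    refine mono (h1 P t hP1 ?_) hle1
    have := hti 0 (Nat.zero_le _)
    rwa [Nat.cast_zero, zero_mul, sub_zero, abs_of_nonneg ht0] at this
  have tb : Sm (fun u => chi P (N * P - u) * Real.exp (-(4 * (N * P - u)))) t ε := by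
    refine sm_refl (G := fun u => chi P u * Real.exp (-(4 * u))) (mono (h1 P (N * P - t) hP1 ?_) hle1)
    have := hti N le_rfl
    rw [abs_sub_comm, abs_of_nonneg (by linarith)] at this
    exact this
  have tc : ∀ i ∈ Finset.Ico 1 N, Sm (fun u => chi P (u - i * P) * chi P (-(u - i * P)) *
      hN (u - i * P)) t ε := by
    intro i hi
    refine sm_shift (G := fun u => chi P u * chi P (-u) * hN u) (mono (h2 P (t - i * P) hP1 ?_) hle2)
    exact hti i (Finset.mem_Ico.1 hi).2.le
  have cb : ContDiff ℝ ∞ (fun u => chi P (N * P - u) * Real.exp (-(4 * (N * P - u)))) :=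
    ContDiff.comp (g := fun u => chi P u * Real.exp (-(4 * u))) hF0
      (f := fun u : ℝ => N * P - u) (by fun_prop)
  have cc : ∀ i ∈ Finset.Ico 1 N, ContDiff ℝ ∞ (fun u => chi P (u - i * P) * chi P (-(u - i * P)) *
      hN (u - i * P)) := fun i _ =>
    ContDiff.comp (g := fun u => chi P u * chi P (-u) * hN u) hG0
      (f := fun u : ℝ => u - i * P) (by fun_prop)
  have hs := sm_sum (Finset.Ico 1 N) cc tc
  have hall := sm_add (hF0.add cb) (ContDiff.sum cc) (sm_add hF0 cb ta tb) hs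
  have heq : CC N P = fun u => (chi P u * Real.exp (-(4 * u)) +
      chi P (N * P - u) * Real.exp (-(4 * (N * P - u)))) +
      ∑ i ∈ Finset.Ico 1 N, chi P (u - i * P) * chi P (-(u - i * P)) * hN (u - i * P) := by
    funext u
    unfold CC
    have e1 : -(4 * (N * P - u)) = 4 * (u - N * P) := by ring
    rw [e1]
    congr 1
    refine Finset.sum_congr rfl fun i _ => ?_
    rw [neg_sub]
  rw [heq]
  refine mono hall ?_
  rw [Nat.card_Ico]
  have hNc : ((N - 1 : ℕ) : ℝ) = N - 1 := by
    rw [Nat.cast_sub hNN, Nat.cast_one]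
  rw [hNc]
  have h5 : ε + ε + ((N : ℝ) - 1) * ε = (N + 1) * K * Real.exp (-(P / 2)) := by
    rw [hε]; ring
  rw [h5]
  calc ((N : ℝ) + 1) * K * Real.exp (-(P / 2)) ≤ (N + 1) * K * (2 / P) :=
        mul_le_mul_of_nonneg_left hexp (by positivity)
    _ ≤ 1 / 10 ^ 6 := by
        rw [mul_div_assoc', div_le_div_iff₀ hP0 (by norm_num)]
        nlinarith

end Pool.Agent.Helper23.CV.CCF
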